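import Pool.Agent.H39.OD.Targets
import Pool.Agent.H83.CP.LD

/-!
# Two-orbit polyhedra with odd faces in hyperbolic 3-space (MP_397744_co): row KOF

The set form of the realization of the cells.
-/

set_option autoImplicit false

namespace Pool.Agent.H89.OD

open Pool.Agent.H57.CP Pool.Agent.H39.TO Pool.Agent.H39.OD Pool.Agent.H57.CP.Cell

variable {K : Geo}

theorem vt_lt_ed {x : H3} {hx : x ∈ K.V} {a : Set H3} {ha : a ∈ K.E} :
    vt x hx < ed a ha ↔ x ∈ a := by
  rw [lt_iff_le_not_ge, Pool.Agent.H83.CP.LD.vt_le_ed]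
  exact ⟨fun h => h.1, fun h => ⟨h, Pool.Agent.H83.CP.LD.ed_le_vt⟩⟩

theorem ed_lt_fc {a : Set H3} {ha : a ∈ K.E} {b : Set (Set H3)} {hb : b ∈ K.F} :
    ed a ha < fc b hb ↔ a ∈ b := by
  rw [lt_iff_le_not_ge, Pool.Agent.H83.CP.LD.ed_le_fc]
  exact ⟨fun h => h.1, fun h => ⟨h, Pool.Agent.H83.CP.LD.fc_le_ed⟩⟩

theorem im1_ed (hK : IsGeo K) (a : Set H3) (ha : a ∈ K.E) :
    im1 (Cell.rk (K := K)) (Cell.real o) (ed a ha) = a := by
  ext x
  constructor
  · rintro ⟨v, ⟨hv0, hv⟩, rfl⟩
    cases v with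
    | bot => exact absurd hv0 (by simp [Cell.rk])
    | top => exact absurd hv0 (by simp [Cell.rk])
    | ed a' ha' => exact absurd hv0 (by simp [Cell.rk])
    | fc b hb => exact absurd hv0 (by simp [Cell.rk])
    | vt y hy => exact vt_lt_ed.1 hv
  · intro hx
    have hxV : x ∈ K.V := by
      obtain ⟨y, hy, z, hz, _, he⟩ := hK.ed a ha
      rw [he] at hx
      rcases hx with h | h
      · rw [h]; exact hy
      · rw [h]; exact hz
    exact ⟨vt x hxV, ⟨rfl, vt_lt_ed.2 hx⟩, rfl⟩

theorem im2_fc (hK : IsGeo K) (b : Set (Set H3)) (hb : b ∈ K.F) :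
    im2 (Cell.rk (K := K)) (Cell.real o) (fc b hb) = b := by
  ext a
  constructor
  · rintro ⟨v, ⟨hv0, hv⟩, rfl⟩
    cases v with
    | bot => exact absurd hv0 (by simp [Cell.rk])
    | top => exact absurd hv0 (by simp [Cell.rk])
    | vt y hy => exact absurd hv0 (by simp [Cell.rk])
    | fc b hb => exact absurd hv0 (by simp [Cell.rk])
    | ed a' ha' =>
      rw [im1_ed hK a' ha']
      exact ed_lt_fc.1 hv
  · intro ha
    have haE : a ∈ K.E := (hK.fs b hb).1 ha
    exact ⟨ed a haE, ⟨rfl, ed_lt_fc.2 ha⟩, im1_ed hK a haE⟩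

theorem pf_KOF : T_KOF := by
  intro K hK
  have hV : Cell.real (K := K) o '' {v | Cell.rk v = 0} = K.V := by
    ext x
    constructor
    · rintro ⟨v, hv0, rfl⟩
      cases v with
      | bot => exact absurd hv0 (by simp [Cell.rk])
      | top => exact absurd hv0 (by simp [Cell.rk])
      | ed a' ha' => exact absurd hv0 (by simp [Cell.rk])
      | fc b hb => exact absurd hv0 (by simp [Cell.rk])
      | vt y hy => exact hy
    · intro hx
      exact ⟨vt x hx, rfl, rfl⟩
  have hE : im1 (Cell.rk (K := K)) (Cell.real o) '' {e | Cell.rk e = 1} = K.E := by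
    ext a
    constructor
    · rintro ⟨v, hv0, rfl⟩
      cases v with
      | bot => exact absurd hv0 (by simp [Cell.rk])
      | top => exact absurd hv0 (by simp [Cell.rk])
      | vt y hy => exact absurd hv0 (by simp [Cell.rk])
      | fc b hb => exact absurd hv0 (by simp [Cell.rk])
      | ed a' ha' => rw [im1_ed hK a' ha']; exact ha'
    · intro ha
      exact ⟨ed a ha, rfl, im1_ed hK a ha⟩
  have hF : im2 (Cell.rk (K := K)) (Cell.real o) '' {f | Cell.rk f = 2} = K.F := by
    ext b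
    constructor
    · rintro ⟨v, hv0, rfl⟩
      cases v with
      | bot => exact absurd hv0 (by simp [Cell.rk])
      | top => exact absurd hv0 (by simp [Cell.rk])
      | vt y hy => exact absurd hv0 (by simp [Cell.rk])
      | ed a' ha' => exact absurd hv0 (by simp [Cell.rk])
      | fc b' hb' => rw [im2_fc hK b' hb']; exact hb'
    · intro hb
      exact ⟨fc b hb, rfl, im2_fc hK b hb⟩
  unfold Kof
  rw [hV, hE, hF]

end Pool.Agent.H89.OD

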